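import Mathlib

/-!
MP_ec348e_an, Q1: a finitely supported complex measure on the discrete group
`ℤ × S₃` which is vague-ergodic (with vague limit `0`) although the convolution
operator on `ℓ^p` is mean ergodic for no exponent `1 < p < ∞`.

For a discrete group the Haar measure is counting measure, `L^p(G) = ℓ^p(G)`,
`M(G) = ℓ¹(G)` contains the group algebra (finitely supported measures, with
convolution as multiplication), and `C_0(G)` is the space of functions tending
to zero along the cofinite filter.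
-/

open Filter Topology
open scoped ENNReal

namespace Pool.Agent.Results.MP_ec348e_an.VagueErgodic

section Definitions

variable {G : Type} [Group G]

/-- The integral of `g` against the finitely supported measure `μ`. -/
noncomputable def pair (g : G → ℂ) (μ : MonoidAlgebra ℂ G) : ℂ :=
  μ.coeff.sum fun y c => c * g y

/-- `μ` is vague-ergodic: the averages of its convolution powers converge vaguely to a
measure on the discrete group `G`, i.e. to an element `ν` of `ℓ¹(G)`. -/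
def IsVagueErgodic (μ : MonoidAlgebra ℂ G) : Prop :=
  ∃ ν : lp (fun _ : G => ℂ) 1, ∀ g : G → ℂ, Tendsto g cofinite (𝓝 0) →
    Tendsto (fun n : ℕ => (n : ℂ)⁻¹ * ∑ k ∈ Finset.Icc 1 n, pair g (μ ^ k)) atTop
      (𝓝 (∑' y, ν y * g y))

/-- The Banach space `ℓ^p(G)`. -/
def Ell (G : Type) (p : ℝ≥0∞) : Type := lp (fun _ : G => ℂ) p

noncomputable instance instNormedAddCommGroupEll (G : Type) (p : ℝ≥0∞) [Fact (1 ≤ p)] :
    NormedAddCommGroup (Ell G p) :=
  (lp.normedAddCommGroup : NormedAddCommGroup (lp (fun _ : G => ℂ) p))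

noncomputable instance instNormedSpaceEll (G : Type) (p : ℝ≥0∞) [Fact (1 ≤ p)] :
    NormedSpace ℂ (Ell G p) :=
  (lp.instNormedSpace : NormedSpace ℂ (lp (fun _ : G => ℂ) p))

/-- The value of an element of `ℓ^p(G)` at a point. -/
def Ell.at {G : Type} {p : ℝ≥0∞} (f : Ell G p) (x : G) : ℂ :=
  (show lp (fun _ : G => ℂ) p from f).1 x

/-- `T` is the operator `f ↦ μ * f` of convolution by `μ` on `ℓ^p(G)`. -/
def IsConvolution {p : ℝ≥0∞} [Fact (1 ≤ p)] (μ : MonoidAlgebra ℂ G)
    (T : Ell G p →L[ℂ] Ell G p) : Prop :=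
  ∀ (f : Ell G p) (x : G), (T f).at x = pair (fun y => f.at (y⁻¹ * x)) μ

/-- `T` is mean ergodic: its averages converge strongly to some bounded operator. -/
def IsMeanErgodic {X : Type} [NormedAddCommGroup X] [NormedSpace ℂ X] (T : X →L[ℂ] X) : Prop :=
  ∃ P : X →L[ℂ] X, ∀ f : X,
    Tendsto (fun n : ℕ => (n : ℂ)⁻¹ • ∑ k ∈ Finset.Icc 1 n, (T ^ k) f) atTop (𝓝 (P f))

end Definitions

section Translation

variable {G : Type} [Group G] {p : ℝ≥0∞} [Fact (1 ≤ p)]

theorem memℓp_translate (hp : p ≠ ∞) (y : G) (f : lp (fun _ : G => ℂ) p) :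
    Memℓp (fun x : G => f (y⁻¹ * x)) p := by
  have h0 : 0 < p.toReal :=
    ENNReal.toReal_pos (zero_lt_one.trans_le (Fact.out : 1 ≤ p)).ne' hp
  apply memℓp_gen
  have h := (lp.memℓp f).summable h0
  exact (Equiv.mulLeft y⁻¹).summable_iff.mpr h

/-- Left translation as a linear map. -/
noncomputable def transLin (hp : p ≠ ∞) (y : G) :
    lp (fun _ : G => ℂ) p →ₗ[ℂ] lp (fun _ : G => ℂ) p where
  toFun f := ⟨fun x => f (y⁻¹ * x), memℓp_translate hp y f⟩
  map_add' f g := by
    ext x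
    rfl
  map_smul' c f := by
    ext x
    rfl

theorem transLin_apply (hp : p ≠ ∞) (y : G) (f : lp (fun _ : G => ℂ) p) (x : G) :
    transLin hp y f x = f (y⁻¹ * x) := rfl

theorem norm_transLin (hp : p ≠ ∞) (y : G) (f : lp (fun _ : G => ℂ) p) :
    ‖transLin hp y f‖ = ‖f‖ := by
  have h0 : 0 < p.toReal :=
    ENNReal.toReal_pos (zero_lt_one.trans_le (Fact.out : 1 ≤ p)).ne' hp
  rw [lp.norm_eq_tsum_rpow h0, lp.norm_eq_tsum_rpow h0]
  congr 1
  exact (Equiv.mulLeft y⁻¹).tsum_eq (fun x => ‖f x‖ ^ p.toReal)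

/-- Left translation as a continuous linear map. -/
noncomputable def trans (hp : p ≠ ∞) (y : G) :
    lp (fun _ : G => ℂ) p →L[ℂ] lp (fun _ : G => ℂ) p :=
  (transLin hp y).mkContinuous 1 (fun f => by rw [norm_transLin hp y f, one_mul])

theorem trans_apply (hp : p ≠ ∞) (y : G) (f : lp (fun _ : G => ℂ) p) (x : G) :
    trans hp y f x = f (y⁻¹ * x) := rfl

/-- The left regular representation on `ℓ^p`. -/
noncomputable def rep (hp : p ≠ ∞) : G →* (lp (fun _ : G => ℂ) p →L[ℂ] lp (fun _ : G => ℂ) p) where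
  toFun y := trans hp y
  map_one' := by
    ext f x
    rw [trans_apply]
    simp
  map_mul' y z := by
    ext f x
    rw [mul_apply_eq_comp, trans_apply, trans_apply, trans_apply]
    group

/-- The convolution operators on `ℓ^p` by finitely supported measures. -/
noncomputable def lam (hp : p ≠ ∞) :
    MonoidAlgebra ℂ G →ₐ[ℂ] (lp (fun _ : G => ℂ) p →L[ℂ] lp (fun _ : G => ℂ) p) :=
  MonoidAlgebra.lift ℂ _ G (rep hp)

theorem lam_single (hp : p ≠ ∞) (y : G) (c : ℂ) (f : lp (fun _ : G => ℂ) p) (x : G) :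
    lam hp (MonoidAlgebra.single y c) f x = c * f (y⁻¹ * x) := by
  rw [lam, MonoidAlgebra.lift_single]
  rfl

theorem lam_apply (hp : p ≠ ∞) (μ : MonoidAlgebra ℂ G) (f : lp (fun _ : G => ℂ) p) (x : G) :
    lam hp μ f x = μ.coeff.sum fun y c => c * f (y⁻¹ * x) := by
  rw [lam, MonoidAlgebra.lift_apply]
  rw [Finsupp.sum, Finsupp.sum, sum_apply, lp.coeFn_sum, Finset.sum_apply]
  rfl

end Translation

section Algebra

variable {R : Type*} [Ring R] [Algebra ℂ R] {A E : R}

theorem one_sub_pow (X : R) (hX : X * X = 0) (n : ℕ) : (1 - X) ^ n = 1 - (n : ℂ) • X := by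
  induction n with
  | zero => simp
  | succ n ih =>
    rw [pow_succ, ih, sub_mul, one_mul, smul_mul_assoc, mul_sub, hX, mul_one]
    push_cast
    module

theorem pow_formula (hA : A * E = E * A) (hE : E * E = 0) (n : ℕ) :
    (-A + A * ((1 + A) * E)) ^ n = ((-1 : ℂ) ^ n) • (A ^ n * (1 - (n : ℂ) • ((1 + A) * E))) := by
  have hX : ((1 + A) * E) * ((1 + A) * E) = 0 := by
    have h1 : E * ((1 + A) * E) = 0 := by
      rw [add_mul, one_mul, mul_add, hE, ← mul_assoc, ← hA, mul_assoc, hE, mul_zero, add_zero]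
    rw [mul_assoc, h1, mul_zero]
  have hc : Commute A (1 - (1 + A) * E) := by
    have h1 : Commute A E := hA
    have h2 : Commute A (1 + A) := (Commute.one_right A).add_right (Commute.refl A)
    exact (Commute.one_right A).sub_right (h2.mul_right h1)
  have e : (-A + A * ((1 + A) * E)) = (-1 : ℂ) • (A * (1 - (1 + A) * E)) := by
    rw [mul_sub, mul_one, neg_one_smul]
    abel
  rw [e, smul_pow, hc.mul_pow, one_sub_pow _ hX]

theorem sum_formula (hA : A * E = E * A) (hE : E * E = 0) (n : ℕ) :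
    ∑ k ∈ Finset.Icc 1 n, (-A + A * ((1 + A) * E)) ^ k =
      (∑ k ∈ Finset.Icc 1 n, ((-1 : ℂ) ^ k) • (A ^ k * (1 - E)))
        - ((-1 : ℂ) ^ n * n) • (A ^ (n + 1) * E) := by
  induction n with
  | zero => simp
  | succ n ih =>
    rw [Finset.sum_Icc_succ_top (by omega), Finset.sum_Icc_succ_top (by omega), ih,
      pow_formula hA hE]
    have e2 : A ^ (n + 1 + 1) * E = A ^ (n + 1) * A * E := by rw [pow_succ A (n + 1)]
    rw [e2, mul_sub, mul_sub, mul_one, mul_smul_comm, add_mul, one_mul, mul_add, ← mul_assoc (A ^ (n+1)) A E, pow_succ (-1 : ℂ) n]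
    push_cast
    module

end Algebra

section Pairing

variable {G : Type} [Group G]

theorem pair_zero (g : G → ℂ) : pair g 0 = 0 := by
  simp [pair]

theorem pair_add (g : G → ℂ) (h k : MonoidAlgebra ℂ G) : pair g (h + k) = pair g h + pair g k := by
  unfold pair
  rw [MonoidAlgebra.coeff_add]
  exact Finsupp.sum_add_index' (fun a => zero_mul _) (fun a b c => add_mul _ _ _)

theorem pair_smul (g : G → ℂ) (c : ℂ) (h : MonoidAlgebra ℂ G) :
    pair g (c • h) = c * pair g h := by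
  unfold pair
  rw [MonoidAlgebra.coeff_smul, Finsupp.sum_smul_index' (fun a => zero_mul _), Finsupp.sum,
    Finsupp.sum, Finset.mul_sum]
  refine Finset.sum_congr rfl (fun a _ => ?_)
  rw [smul_eq_mul, mul_assoc]

theorem pair_sub (g : G → ℂ) (h k : MonoidAlgebra ℂ G) : pair g (h - k) = pair g h - pair g k := by
  have e : h - k = h + (-1 : ℂ) • k := by rw [neg_one_smul, sub_eq_add_neg]
  rw [e, pair_add, pair_smul]
  ring

theorem pair_sum {ι : Type*} (s : Finset ι) (g : G → ℂ) (h : ι → MonoidAlgebra ℂ G) :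
    pair g (∑ i ∈ s, h i) = ∑ i ∈ s, pair g (h i) := by
  classical
  induction s using Finset.induction_on with
  | empty => simp [pair_zero]
  | insert a s ha ih => rw [Finset.sum_insert ha, Finset.sum_insert ha, pair_add, ih]

theorem pair_single (g : G → ℂ) (x : G) (c : ℂ) :
    pair g (MonoidAlgebra.single x c) = c * g x := by
  unfold pair
  rw [MonoidAlgebra.coeff_single, Finsupp.sum_single_index (zero_mul _)]

end Pairing

/-- The group `ℤ × S₃`. -/
abbrev GG : Type := Multiplicative ℤ × Equiv.Perm (Fin 3)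

/-- A transposition. -/
def s : Equiv.Perm (Fin 3) := Equiv.swap 0 1

/-- A three-cycle. -/
def t : Equiv.Perm (Fin 3) := finRotate 3

/-- The unit mass at the generator of `ℤ`. -/
noncomputable def A : MonoidAlgebra ℂ GG := MonoidAlgebra.single (Multiplicative.ofAdd 1, 1) 1

/-- A nilpotent element of the group algebra of `S₃`. -/
noncomputable def E : MonoidAlgebra ℂ GG :=
  MonoidAlgebra.single (1, t) 1 + MonoidAlgebra.single (1, t * s) 1
    - MonoidAlgebra.single (1, s * t) 1 - MonoidAlgebra.single (1, s * t * s) 1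

theorem A_pow (k : ℕ) : A ^ k = MonoidAlgebra.single (Multiplicative.ofAdd (k : ℤ), 1) 1 := by
  rw [A, MonoidAlgebra.single_pow, one_pow]
  congr 1
  ext1
  · simp only [Prod.pow_mk]
    rw [← ofAdd_nsmul]
    simp
  · simp

theorem hA : A * E = E * A := by
  unfold A E
  simp only [mul_sub, mul_add, sub_mul, add_mul, MonoidAlgebra.single_mul_single, Prod.mk_mul_mk,
    mul_one, one_mul]

theorem hE : E * E = 0 := by
  have hs : s * s = 1 := by decide
  have e : E = (1 - MonoidAlgebra.single (1, s) 1) * MonoidAlgebra.single (1, t) 1 *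
      (1 + MonoidAlgebra.single (1, s) 1) := by
    unfold E
    simp only [mul_sub, mul_add, sub_mul, add_mul, MonoidAlgebra.single_mul_single, Prod.mk_mul_mk,
      mul_one, one_mul]
    abel
  have e1 : (1 + MonoidAlgebra.single ((1, s) : GG) (1 : ℂ)) *
      (1 - MonoidAlgebra.single (1, s) 1) = 0 := by
    simp only [mul_sub, mul_add, sub_mul, add_mul, MonoidAlgebra.single_mul_single, Prod.mk_mul_mk,
      mul_one, one_mul, hs, MonoidAlgebra.one_def]
    have : ((1 : Multiplicative ℤ), (1 : Equiv.Perm (Fin 3))) = (1 : GG) := rfl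
    rw [this]
    abel
  rw [e]
  calc _ = (1 - MonoidAlgebra.single (1, s) 1) * MonoidAlgebra.single (1, t) 1 *
      ((1 + MonoidAlgebra.single ((1, s) : GG) (1 : ℂ)) *
      (1 - MonoidAlgebra.single (1, s) 1)) * MonoidAlgebra.single (1, t) 1 *
      (1 + MonoidAlgebra.single (1, s) 1) := by noncomm_ring
    _ = 0 := by rw [e1]; simp

theorem pair_AE (g : GG → ℂ) (k : ℕ) : pair g (A ^ k * E) =
    g (Multiplicative.ofAdd (k : ℤ), t) + g (Multiplicative.ofAdd (k : ℤ), t * s)
      - g (Multiplicative.ofAdd (k : ℤ), s * t) - g (Multiplicative.ofAdd (k : ℤ), s * t * s) := by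
  rw [A_pow, E]
  simp only [mul_sub, mul_add, MonoidAlgebra.single_mul_single, Prod.mk_mul_mk, mul_one, one_mul,
    pair_sub, pair_add, pair_single]

theorem pair_A (g : GG → ℂ) (k : ℕ) : pair g (A ^ k) = g (Multiplicative.ofAdd (k : ℤ), 1) := by
  rw [A_pow, pair_single, one_mul]

/-- The measure. -/
noncomputable def μ : MonoidAlgebra ℂ GG := -A + A * ((1 + A) * E)

theorem pair_avg (g : GG → ℂ) (n : ℕ) :
    ∑ k ∈ Finset.Icc 1 n, pair g (μ ^ k) =
      (∑ k ∈ Finset.Icc 1 n, ((-1 : ℂ) ^ k) * (pair g (A ^ k) - pair g (A ^ k * E)))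
        - ((-1 : ℂ) ^ n * n) * pair g (A ^ (n + 1) * E) := by
  rw [← pair_sum]
  unfold μ
  rw [sum_formula hA hE, pair_sub, pair_sum, pair_smul]
  congr 1
  refine Finset.sum_congr rfl (fun k _ => ?_)
  rw [pair_smul, mul_sub, mul_one, pair_sub]

theorem tendsto_col (g : GG → ℂ) (hg : Tendsto g cofinite (𝓝 0)) (σ : Equiv.Perm (Fin 3)) :
    Tendsto (fun k : ℕ => g (Multiplicative.ofAdd (k : ℤ), σ)) atTop (𝓝 0) := by
  rw [← Nat.cofinite_eq_atTop]
  refine hg.comp (Function.Injective.tendsto_cofinite ?_)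
  intro a b h
  have h1 : ((a : ℤ)) = b := (Prod.mk.inj h).1
  exact_mod_cast h1

theorem vague (g : GG → ℂ) (hg : Tendsto g cofinite (𝓝 0)) :
    Tendsto (fun n : ℕ => (n : ℂ)⁻¹ * ∑ k ∈ Finset.Icc 1 n, pair g (μ ^ k)) atTop (𝓝 0) := by
  have h1 : Tendsto (fun k : ℕ => pair g (A ^ k)) atTop (𝓝 0) := by
    simp only [pair_A]
    exact tendsto_col g hg 1
  have h2 : Tendsto (fun k : ℕ => pair g (A ^ k * E)) atTop (𝓝 0) := by
    simp only [pair_AE]
    simpa using (((tendsto_col g hg t).add (tendsto_col g hg (t * s))).sub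
      (tendsto_col g hg (s * t))).sub (tendsto_col g hg (s * t * s))
  have h3 : Tendsto (fun k : ℕ => ‖((-1 : ℂ) ^ (k + 1)) *
      (pair g (A ^ (k + 1)) - pair g (A ^ (k + 1) * E))‖) atTop (𝓝 0) := by
    have h := ((tendsto_add_atTop_iff_nat 1).mpr (h1.sub h2)).norm
    simpa using h
  have h4 := h3.cesaro
  have h5 : Tendsto (fun n : ℕ => (n : ℂ)⁻¹ * ∑ k ∈ Finset.Icc 1 n, ((-1 : ℂ) ^ k) *
      (pair g (A ^ k) - pair g (A ^ k * E))) atTop (𝓝 0) := by
    refine squeeze_zero_norm (fun n => ?_) h4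
    rw [norm_mul, norm_inv, Complex.norm_natCast]
    refine mul_le_mul_of_nonneg_left ?_ (by positivity)
    have e : Finset.Icc 1 n = Finset.Ico (0 + 1) (n + 1) := by
      ext x
      simp only [Finset.mem_Icc, Finset.mem_Ico]
      omega
    rw [e, ← Finset.sum_Ico_add' (fun k => ((-1 : ℂ) ^ k) *
      (pair g (A ^ k) - pair g (A ^ k * E))), ← Finset.range_eq_Ico]
    exact norm_sum_le _ _
  have h6 : Tendsto (fun n : ℕ => ((-1 : ℂ) ^ n) * pair g (A ^ (n + 1) * E)) atTop (𝓝 0) := by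
    rw [tendsto_zero_iff_norm_tendsto_zero]
    have h := ((tendsto_add_atTop_iff_nat 1).mpr h2).norm
    simpa using h
  have h7 := h5.sub h6
  rw [sub_zero] at h7
  refine h7.congr' ?_
  filter_upwards [eventually_ge_atTop 1] with n hn
  have hn0 : (n : ℂ) ≠ 0 := by
    exact_mod_cast (by omega : n ≠ 0)
  rw [pair_avg]
  field_simp

theorem coeff_eq_pair {G : Type} [Group G] [DecidableEq G] (h : MonoidAlgebra ℂ G) (x : G) :
    h.coeff x = pair (Pi.single x 1) h := by
  unfold pair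
  simp only [Pi.single_apply, mul_ite, mul_one, mul_zero]
  rw [Finsupp.sum_ite_eq']
  by_cases hx : x ∈ h.coeff.support
  · rw [if_pos hx]
  · rw [if_neg hx, Finsupp.notMem_support_iff.mp hx]

theorem coeff_avg (n : ℕ) (hn : 1 ≤ n) :
    ∑ k ∈ Finset.Icc 1 n, pair (Pi.single (Multiplicative.ofAdd ((n + 1 : ℕ) : ℤ), t) 1) (μ ^ k) =
      -((-1 : ℂ) ^ n * n) := by
  have h0 : ∀ (k : ℕ) (σ : Equiv.Perm (Fin 3)), k ≠ n + 1 →
      (Pi.single (Multiplicative.ofAdd ((n + 1 : ℕ) : ℤ), t) 1 : GG → ℂ)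
        (Multiplicative.ofAdd (k : ℤ), σ) = 0 := by
    intro k σ hk
    rw [Pi.single_apply, if_neg]
    intro h
    have h1 : ((k : ℤ)) = ((n + 1 : ℕ) : ℤ) := (Prod.mk.inj h).1
    exact hk (by exact_mod_cast h1)
  have h1 : ∀ (σ : Equiv.Perm (Fin 3)), σ ≠ t →
      (Pi.single (Multiplicative.ofAdd ((n + 1 : ℕ) : ℤ), t) 1 : GG → ℂ)
        (Multiplicative.ofAdd ((n + 1 : ℕ) : ℤ), σ) = 0 := by
    intro σ hσ
    rw [Pi.single_apply, if_neg]
    intro h
    exact hσ (Prod.mk.inj h).2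
  rw [pair_avg, pair_AE, h1 (t * s) (by decide), h1 (s * t) (by decide),
    h1 (s * t * s) (by decide), Pi.single_eq_same, Finset.sum_eq_zero]
  · ring
  · intro k hk
    rw [Finset.mem_Icc] at hk
    rw [pair_A, pair_AE, h0 k 1 (by omega), h0 k t (by omega), h0 k _ (by omega),
      h0 k _ (by omega), h0 k _ (by omega)]
    ring

theorem lam_delta {G : Type} [Group G] [DecidableEq G] {p : ℝ≥0∞} [Fact (1 ≤ p)] (hp : p ≠ ∞)
    (h : MonoidAlgebra ℂ G) (x : G) :
    lam hp h (lp.single p (1 : G) (1 : ℂ)) x = h.coeff x := by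
  rw [lam_apply, coeff_eq_pair]
  unfold pair
  refine Finsupp.sum_congr (fun y _ => ?_)
  rw [lp.single_apply, Pi.single_apply, Pi.single_apply]
  by_cases hxy : y = x
  · subst hxy
    simp
  · have : ¬ (y⁻¹ * x = 1) := by
      intro h'
      exact hxy (inv_mul_eq_one.mp h')
    rw [if_neg hxy, if_neg this]

/-- **Answer to Q1 (positive).** There is a countable discrete group `G` and a finitely
supported measure `μ` on it which is vague-ergodic although for every `1 < p < ∞` the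
convolution operator by `μ` on `ℓ^p(G)` is not mean ergodic. -/
theorem result :
    ∃ (G : Type) (_ : Group G) (_ : Countable G) (μ : MonoidAlgebra ℂ G), IsVagueErgodic μ ∧
      ∀ (p : ℝ≥0∞) (_ : Fact (1 ≤ p)), 1 < p → p < ∞ →
        ∃ T : Ell G p →L[ℂ] Ell G p, IsConvolution μ T ∧ ¬ IsMeanErgodic T := by
  refine ⟨GG, inferInstance, inferInstance, μ, ⟨0, fun g hg => ?_⟩, ?_⟩
  · have h := vague g hg
    simpa using h
  intro p _ _ hp
  refine ⟨lam hp.ne μ, lam_apply hp.ne μ, ?_⟩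
  rintro ⟨P', hP'⟩
  obtain ⟨P, hP⟩ : ∃ P : lp (fun _ : GG => ℂ) p →L[ℂ] lp (fun _ : GG => ℂ) p,
      ∀ f : lp (fun _ : GG => ℂ) p,
        Tendsto (fun n : ℕ => (n : ℂ)⁻¹ • ∑ k ∈ Finset.Icc 1 n, (lam hp.ne μ ^ k) f) atTop
          (𝓝 (P f)) := ⟨P', hP'⟩
  classical
  set δ : lp (fun _ : GG => ℂ) p := lp.single p (1 : GG) (1 : ℂ) with hδ
  have hval : ∀ (n : ℕ) (x : GG), ((n : ℂ)⁻¹ • ∑ k ∈ Finset.Icc 1 n, (lam hp.ne μ ^ k) δ) x =
      (n : ℂ)⁻¹ * ∑ k ∈ Finset.Icc 1 n, pair (Pi.single x 1) (μ ^ k) := by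
    intro n x
    rw [lp.coeFn_smul, Pi.smul_apply, lp.coeFn_sum, Finset.sum_apply, smul_eq_mul]
    congr 1
    refine Finset.sum_congr rfl (fun k _ => ?_)
    rw [← map_pow, hδ, lam_delta, coeff_eq_pair]
  have hlim := hP δ
  -- the limit vanishes pointwise
  have hp0 : p ≠ 0 := by
    intro h
    rw [h] at hp
    have := (Fact.out : (1 : ℝ≥0∞) ≤ p)
    rw [h] at this
    simp at this
  have hP0 : P δ = 0 := by
    ext x
    have h1 : Tendsto (fun n : ℕ => ((n : ℂ)⁻¹ • ∑ k ∈ Finset.Icc 1 n, (lam hp.ne μ ^ k) δ) x)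
        atTop (𝓝 ((P δ) x)) := by
      rw [tendsto_iff_norm_sub_tendsto_zero]
      rw [tendsto_iff_norm_sub_tendsto_zero] at hlim
      refine squeeze_zero (fun n => norm_nonneg _) (fun n => ?_) hlim
      have := lp.norm_apply_le_norm hp0
        (((n : ℂ)⁻¹ • ∑ k ∈ Finset.Icc 1 n, (lam hp.ne μ ^ k) δ) - P δ) x
      rwa [lp.coeFn_sub, Pi.sub_apply] at this
    have h2 : Tendsto (fun n : ℕ => ((n : ℂ)⁻¹ • ∑ k ∈ Finset.Icc 1 n, (lam hp.ne μ ^ k) δ) x)
        atTop (𝓝 0) := by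
      simp only [hval]
      refine vague _ ?_
      refine tendsto_const_nhds.congr' ?_
      have : {x}ᶜ ∈ (cofinite : Filter GG) := by
        rw [mem_cofinite, compl_compl]
        exact Set.finite_singleton x
      filter_upwards [this] with y hy
      have hy' : ¬ y = x := fun h => hy (by rw [h]; exact Set.mem_singleton x)
      rw [Pi.single_apply, if_neg hy']
    exact tendsto_nhds_unique h1 h2
  rw [hP0, tendsto_zero_iff_norm_tendsto_zero] at hlim
  have hge : ∀ n : ℕ, 1 ≤ n →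
      1 ≤ ‖(n : ℂ)⁻¹ • ∑ k ∈ Finset.Icc 1 n, (lam hp.ne μ ^ k) δ‖ := by
    intro n hn
    refine le_trans ?_ (lp.norm_apply_le_norm hp0 _ (Multiplicative.ofAdd ((n + 1 : ℕ) : ℤ), t))
    rw [hval, coeff_avg n hn, norm_mul, norm_neg, norm_mul, norm_pow, norm_neg, norm_one, one_pow,
      one_mul, norm_inv, Complex.norm_natCast, inv_mul_cancel₀]
    exact_mod_cast (by omega : n ≠ 0)
  have := ge_of_tendsto hlim (eventually_atTop.mpr ⟨1, hge⟩)
  norm_num at this

end Pool.Agent.Results.MP_ec348e_an.VagueErgodic
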